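import Pool.Agent.Y394.TM.Main

/-!
# MP_d0d08e_co, question Q1 (full answer)

Clique-width is bounded on the class of graphs that do not contain `H` as an induced topological
minor if and only if `H` is an induced subgraph of the path `P₄`, of the paw or of the diamond.

Definitions used: `IsSubdivision`, `IsITM`, `BddCwITM` in `Pool/Agent/Y394/TM/Defs.lean`;
`CwBuilt`, `CwLE`, `cliqueWidth`, `paw`, `diamond` in `Pool/Agent/H175R2/Defs.lean`.
-/

set_option autoImplicit false

namespace Pool.Agent.Results.MP_d0d08e_co.Classification

open Pool.Agent.H175R2 Pool.Agent.Y394.TM

/-- For every finite graph `H`: clique-width is bounded on the class of finite graphs not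
containing `H` as an induced topological minor iff `H` is an induced subgraph of `P₄`, of the paw
or of the diamond. -/
theorem result (W : Type) [Finite W] (H : SimpleGraph W) :
    (∃ c : ℕ, ∀ (V : Type) [Finite V] (G : SimpleGraph V), ¬ IsITM H G → cliqueWidth G ≤ c) ↔
      (H.IsIndContained (SimpleGraph.pathGraph 4) ∨ H.IsIndContained paw ∨
        H.IsIndContained diamond) :=
  classification H

end Pool.Agent.Results.MP_d0d08e_co.Classification
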